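import Pool.Agent.TH3.PI.Final

/-!
# Projective involutions on tangent lines: foliations by homothetic curves

`f` is a smooth positive function on the punctured plane, positively homogeneous of degree one.
The curve `γ = {f = 1}` is closed, its dilates `{f = r}` foliate the punctured plane, and
`curved` says that `γ` has positive curvature: on the tangent line of `γ` at `p` (direction `v`
with `fderiv ℝ f p v = 0`) the function `f` has a nondegenerate minimum at `p`.  So each level
`f = r`, `r > 1` close to `1`, meets the tangent line near `p` in exactly two points, one on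
each side of `p`.  `proj` says that the involution which exchanges them is projective: a
projective involution of the line (coordinate `s`) that fixes `s = 0` and exchanges the two
sides is `s ↦ -s / (1 + c s)`.

Conclusion: `f ^ 2` is a positive definite quadratic form, that is, `γ` is an ellipse centred at
the origin and the leaves are the ellipses `q = r ^ 2` of the pencil spanned by `q` and the
double line at infinity.
-/

open Filter Topology

namespace Pool.Agent.Results.MP_ae5b4e_an.HomotheticLeaves

theorem result (f : ℝ × ℝ → ℝ)
    (smooth : ContDiffOn ℝ (⊤ : ℕ∞) f {x | x ≠ 0})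
    (homog : ∀ t : ℝ, 0 < t → ∀ x, f (t • x) = t * f x)
    (pos : ∀ x, x ≠ 0 → 0 < f x)
    (curved : ∀ p v, f p = 1 → v ≠ 0 → fderiv ℝ f p v = 0 →
      0 < deriv (deriv fun s : ℝ => f (p + s • v)) 0)
    (proj : ∀ p v, f p = 1 → v ≠ 0 → fderiv ℝ f p v = 0 →
      ∃ c : ℝ, ∀ᶠ s in 𝓝 (0 : ℝ), f (p + s • v) = f (p - (s / (1 + c * s)) • v)) :
    ∃ a b c : ℝ, 0 < a ∧ b ^ 2 < a * c ∧
      ∀ x y, f (x, y) ^ 2 = a * x ^ 2 + 2 * b * x * y + c * y ^ 2 :=
  Pool.Agent.TH3.PI.main f smooth homog pos curved proj

end Pool.Agent.Results.MP_ae5b4e_an.HomotheticLeaves
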