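import Pool.Agent.TH242.MK.OutLoc
import Pool.Agent.TH242.MK.Strip
import Pool.Agent.TH242.MK.Base

/-!
# Affine involutions on the tangent lines: an oscillation bound for the curvature

The case of MP_ae5b4e_an in which all `σ_p` are the point reflections in `p` (outer billiards) and
the leaves are the level sets of a real analytic function near `γ`.
-/

open Complex Set Metric

namespace Pool.Agent.Results.MP_ae5b4e_an.OuterCurvatureBounds

/-- `γ` is a closed plane curve with positive continuous radius of curvature `ρ`, parametrised by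
its normal angle: `γ'(s) = ρ(s) i e^{is}`; the outer unit normal at `γ s` is `e^{is}`. -/
def IsOval (γ : ℝ → ℂ) (ρ : ℝ → ℝ) : Prop :=
  (∀ s, γ (s + 2 * Real.pi) = γ s) ∧ Continuous ρ ∧ (∀ s, 0 < ρ s) ∧
    ∀ s : ℝ, HasDerivAt γ ((ρ s : ℂ) * I * cexp (s * I)) s

/-- the point at signed distance `δ` from `γ s` on the tangent line at `γ s` -/
noncomputable def tangentPoint (γ : ℝ → ℂ) (s δ : ℝ) : ℂ := γ s + δ * (I * cexp (s * I))

/-- `K(x, y)` is a nonconstant real analytic first integral of the outer billiard about `γ` near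
`γ`: it is analytic and nonconstant on a connected neighbourhood `U` of `γ`, and for every `s` it
has the same value at the two points at distance `δ` from `γ s` on the tangent line at `γ s`, which
the reflection in `γ s` exchanges, for all small `δ > 0`. -/
def IsIntegralNear (γ : ℝ → ℂ) (K : ℝ → ℝ → ℝ) (U : Set (ℝ × ℝ)) : Prop :=
  IsOpen U ∧ IsPreconnected U ∧ (∀ s, ((γ s).re, (γ s).im) ∈ U) ∧
    AnalyticOnNhd ℝ (Function.uncurry K) U ∧
    (∀ s : ℝ, ∃ ε > 0, ∀ δ : ℝ, 0 < δ → δ < ε →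
      K (tangentPoint γ s δ).re (tangentPoint γ s δ).im
        = K (tangentPoint γ s (-δ)).re (tangentPoint γ s (-δ)).im) ∧
    ∃ z ∈ U, ∃ w ∈ U, K z.1 z.2 ≠ K w.1 w.2

lemma tangentPoint_re (γ : ℝ → ℂ) (s δ : ℝ) :
    (tangentPoint γ s δ).re = (γ s).re - δ * Real.sin s := by
  simp [tangentPoint, Complex.exp_ofReal_mul_I_re, Complex.exp_ofReal_mul_I_im]
  ring

lemma tangentPoint_im (γ : ℝ → ℂ) (s δ : ℝ) :
    (tangentPoint γ s δ).im = (γ s).im + δ * Real.cos s := by
  simp [tangentPoint, Complex.exp_ofReal_mul_I_re, Complex.exp_ofReal_mul_I_im]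

lemma oInt {γ : ℝ → ℂ} {K : ℝ → ℝ → ℝ} {U : Set (ℝ × ℝ)} (h : IsIntegralNear γ K U) :
    H719FX.OInt γ K U := by
  obtain ⟨h1, h2, h3, h4, h5, z, hz, w, hw, hne⟩ := h
  refine ⟨h1, h2, h3, h4, fun s => ?_, ?_⟩
  · obtain ⟨ε, hε, h⟩ := h5 s
    refine ⟨ε, hε, fun δ hδ hδ' => ?_⟩
    have := h δ hδ hδ'
    simpa [tangentPoint_re, tangentPoint_im, sub_eq_add_neg] using this
  · rintro ⟨c, hc⟩
    exact hne ((hc z hz).trans (hc w hw).symm)

theorem nz_strip {γ : ℝ → ℂ} {ρ : ℝ → ℝ} (h : IsOval γ ρ) {K : ℝ → ℝ → ℝ} {U : Set (ℝ × ℝ)}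
    (hK : IsIntegralNear γ K U) {a : ℝ}
    {R : ℂ → ℂ} (hR : DifferentiableOn ℂ R {z | |z.im| < a}) (hRρ : ∀ x : ℝ, R x = ρ x) :
    ∀ z, |z.im| < a → R z ≠ 0 := by
  intro z hz
  have ha : 0 < a := (abs_nonneg _).trans_lt hz
  obtain ⟨a1, a2, a3, a4⟩ := h
  refine TH242.MK.outer_ball (γ := γ) (ρ := ρ) ⟨a1, a2, a3, a4⟩ (oInt hK) (c := z.re) ha
    (hR.mono ?_) (fun x _ => hRρ x) z ?_
  · intro w hw
    rw [mem_ball, dist_eq_norm] at hw
    have h1 := Complex.abs_im_le_norm (w - (z.re : ℂ))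
    simp only [sub_im, ofReal_im, sub_zero] at h1
    exact h1.trans_lt hw
  · rw [mem_ball, dist_eq_norm]
    have h1 : z - (z.re : ℂ) = (z.im : ℂ) * I := by
      apply Complex.ext <;> simp
    rw [h1, norm_mul, Complex.norm_real, Complex.norm_I, mul_one, Real.norm_eq_abs]
    exact hz

/-- Let `γ` be an oval with a nonconstant real analytic function near `γ` whose level sets are
exchanged by the point reflections of the tangent lines in the points of tangency, and let its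
radius of curvature `ρ`, as a function of the normal angle, extend to an analytic function `R` with
`|R| ≤ M` in the strip `|Im z| < a`.  Then `log ρ` differs from its mean `l` by at most
`4 (log M - l) / (e^a - 1)`. -/
theorem result (γ : ℝ → ℂ) (ρ : ℝ → ℝ) (h : IsOval γ ρ) (K : ℝ → ℝ → ℝ) (U : Set (ℝ × ℝ))
    (hK : IsIntegralNear γ K U) (a M : ℝ)
    (ha : 0 < a) (R : ℂ → ℂ) (hR : DifferentiableOn ℂ R {z | |z.im| < a})
    (hRρ : ∀ x : ℝ, R x = ρ x) (hM : ∀ z : ℂ, |z.im| < a → ‖R z‖ ≤ M) (l : ℝ)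
    (hl : l = (2 * Real.pi)⁻¹ * ∫ s in (0 : ℝ)..(2 * Real.pi), Real.log (ρ s)) (s : ℝ) :
    |Real.log (ρ s) - l| ≤ 4 * (Real.log M - l) / (Real.exp a - 1) := by
  have h0 := nz_strip h hK hR hRρ
  obtain ⟨g, hg, hgR, hgr, hgp⟩ := TH242.MK.Str.rlog ha hR (fun z hz => h0 z hz) hRρ h.2.2.1
    (TH242.MK.Ov.per (γ := γ) h)
  have hL : ∀ z ∈ TH242.MK.Str a, (g z).re ≤ Real.log M := by
    intro z hz
    have h1 : Real.exp (g z).re = ‖R z‖ := by
      rw [← hgR z hz, Complex.norm_exp]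
    have h2 : 0 < ‖R z‖ := norm_pos_iff.2 (h0 z hz)
    rw [← Real.log_exp (g z).re, h1]
    exact Real.log_le_log h2 (hM z hz)
  have h3 := TH242.MK.Str.dev ha hg hgp (fun x => ⟨_, hgr x⟩) hL s
  have h4 : W743.BE.cf g 0 = ((∫ s in (0 : ℝ)..(2 * Real.pi), Real.log (ρ s) : ℝ) : ℂ) := by
    unfold W743.BE.cf
    rw [← intervalIntegral.integral_ofReal]
    refine intervalIntegral.integral_congr fun x _ => ?_
    simp only [Int.cast_zero, zero_mul, neg_zero, Complex.exp_zero, mul_one]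
    exact hgr x
  rw [h4, hgr s, ofReal_re] at h3
  have h5 : ((Real.log (ρ s) : ℝ) : ℂ) -
      ((∫ s in (0 : ℝ)..(2 * Real.pi), Real.log (ρ s) : ℝ) : ℂ) / (2 * Real.pi) =
      ((Real.log (ρ s) - l : ℝ) : ℂ) := by
    rw [hl]
    push_cast
    ring
  have h6 : (∫ s in (0 : ℝ)..(2 * Real.pi), Real.log (ρ s)) / (2 * Real.pi) = l := by
    rw [hl]
    ring
  rw [h5, Complex.norm_real, Real.norm_eq_abs, h6] at h3
  exact h3

end Pool.Agent.Results.MP_ae5b4e_an.OuterCurvatureBounds
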