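import Pool.Agent.TH242.MK.OutReg

/-!
# Affine involutions on the tangent lines: few ovals in a family

The case of MP_ae5b4e_an in which all `σ_p` are the point reflections in `p` (outer billiards) and
the leaves are the level sets of a real analytic function near `γ`.
-/

open Complex Set

namespace Pool.Agent.Results.MP_ae5b4e_an.OuterFewInFamilies

/-- `γ` is a closed plane curve with positive continuous radius of curvature `ρ`, parametrised by
its normal angle: `γ'(s) = ρ(s) i e^{is}`; the outer unit normal at `γ s` is `e^{is}`. -/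
def IsOval (γ : ℝ → ℂ) (ρ : ℝ → ℝ) : Prop :=
  (∀ s, γ (s + 2 * Real.pi) = γ s) ∧ Continuous ρ ∧ (∀ s, 0 < ρ s) ∧
    ∀ s : ℝ, HasDerivAt γ ((ρ s : ℂ) * I * cexp (s * I)) s

/-- the point at signed distance `δ` from `γ s` on the tangent line at `γ s` -/
noncomputable def tangentPoint (γ : ℝ → ℂ) (s δ : ℝ) : ℂ := γ s + δ * (I * cexp (s * I))

/-- `K(x, y)` is a nonconstant real analytic first integral of the outer billiard about `γ` near
`γ`: it is analytic and nonconstant on a connected neighbourhood `U` of `γ`, and for every `s` it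
has the same value at the two points at distance `δ` from `γ s` on the tangent line at `γ s`, which
the reflection in `γ s` exchanges, for all small `δ > 0`. -/
def IsIntegralNear (γ : ℝ → ℂ) (K : ℝ → ℝ → ℝ) (U : Set (ℝ × ℝ)) : Prop :=
  IsOpen U ∧ IsPreconnected U ∧ (∀ s, ((γ s).re, (γ s).im) ∈ U) ∧
    AnalyticOnNhd ℝ (Function.uncurry K) U ∧
    (∀ s : ℝ, ∃ ε > 0, ∀ δ : ℝ, 0 < δ → δ < ε →
      K (tangentPoint γ s δ).re (tangentPoint γ s δ).im
        = K (tangentPoint γ s (-δ)).re (tangentPoint γ s (-δ)).im) ∧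
    ∃ z ∈ U, ∃ w ∈ U, K z.1 z.2 ≠ K w.1 w.2

/-- `a` is entire and `|a(z)| ≤ exp (A e^{σ|z|})` for some `A` (if `σ > 0`, this holds for all
trigonometric polynomials, for all entire functions of finite order, and for the functions of
order less than `σ` in `e^{iz}`). -/
def IsSmall (σ : ℝ) (a : ℂ → ℂ) : Prop :=
  Differentiable ℂ a ∧ ∃ A : ℝ, ∀ z, ‖a z‖ ≤ Real.exp (A * Real.exp (σ * ‖z‖))

/-- The parametrisation `t ↦ γ (θ t)` of the oval has speed `v` and its normal turns with angular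
velocity `w`: `θ` is onto, `θ' = w`, `|d/dt γ (θ t)| = ρ (θ t) w(t) = v(t)`, where `v` and `w`
extend to entire functions of period `2 π`.  (For instance `θ t = t`, `w = 1`, if `ρ` is entire;
or `v` constant, if the curvature is an entire function of the arc length.) -/
def IsEntireMotion (ρ : ℝ → ℝ) (θ : ℝ → ℝ) (v w : ℂ → ℂ) : Prop :=
  Differentiable ℂ v ∧ Differentiable ℂ w ∧ (∀ z, v (z + 2 * Real.pi) = v z) ∧
    (∀ z, w (z + 2 * Real.pi) = w z) ∧ Function.Surjective θ ∧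
    (∀ t : ℝ, HasDerivAt (fun x : ℝ => (θ x : ℂ)) (w t) t) ∧
    ∀ t : ℝ, v t = ρ (θ t) * w t

/-- the ovals `γ j`, parametrised by entire motions `t ↦ γ j (θ j t)`, have integrable outer
billiards, are not circles, and their radii of curvature are pairwise not proportional as functions
of the parameter `t` -/
def IsFamily {n : ℕ} (γ : Fin n → ℝ → ℂ) (ρ θ : Fin n → ℝ → ℝ) : Prop :=
  (∀ j, IsOval (γ j) (ρ j)) ∧ (∀ j, ∃ K U, IsIntegralNear (γ j) K U) ∧
    (∀ j, ¬ ∃ c, ∀ s, ρ j s = c) ∧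
    (∀ i j, i ≠ j → ¬ ∃ c, ∀ t, ρ i (θ i t) = c * ρ j (θ j t)) ∧
    ∀ j, ∃ v w, IsEntireMotion (ρ j) (θ j) v w

lemma tangentPoint_re (γ : ℝ → ℂ) (s δ : ℝ) :
    (tangentPoint γ s δ).re = (γ s).re - δ * Real.sin s := by
  simp [tangentPoint, Complex.exp_ofReal_mul_I_re, Complex.exp_ofReal_mul_I_im]
  ring

lemma tangentPoint_im (γ : ℝ → ℂ) (s δ : ℝ) :
    (tangentPoint γ s δ).im = (γ s).im + δ * Real.cos s := by
  simp [tangentPoint, Complex.exp_ofReal_mul_I_re, Complex.exp_ofReal_mul_I_im]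

lemma oInt {γ : ℝ → ℂ} {K : ℝ → ℝ → ℝ} {U : Set (ℝ × ℝ)} (h : IsIntegralNear γ K U) :
    H719FX.OInt γ K U := by
  obtain ⟨h1, h2, h3, h4, h5, z, hz, w, hw, hne⟩ := h
  refine ⟨h1, h2, h3, h4, fun s => ?_, ?_⟩
  · obtain ⟨ε, hε, h⟩ := h5 s
    refine ⟨ε, hε, fun δ hδ hδ' => ?_⟩
    have := h δ hδ hδ'
    simpa [tangentPoint_re, tangentPoint_im, sub_eq_add_neg] using this
  · rintro ⟨c, hc⟩
    exact hne ((hc z hz).trans (hc w hw).symm)

theorem small {σ : ℝ} {a : ℂ → ℂ} (h : IsSmall σ a) : TH242.MK.Tm (max σ 0) a := by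
  obtain ⟨hd, A, hA⟩ := h
  refine ⟨hd, |A|, abs_nonneg A, fun z => (hA z).trans (Real.exp_le_exp.2 ?_)⟩
  calc A * Real.exp (σ * ‖z‖) ≤ |A| * Real.exp (σ * ‖z‖) :=
        mul_le_mul_of_nonneg_right (le_abs_self A) (Real.exp_pos _).le
    _ ≤ |A| * Real.exp (max σ 0 * ‖z‖) := by
        apply mul_le_mul_of_nonneg_left _ (abs_nonneg A)
        exact Real.exp_le_exp.2 (mul_le_mul_of_nonneg_right (le_max_left _ _) (norm_nonneg _))

/-- Let `u₁, …, u_k` be functions on the real line.  Consider ovals `γ` with a parametrisation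
`t ↦ γ (θ t)` whose speed and angular velocity are entire and `2 π`-periodic, and whose radius of
curvature satisfies
`b(t) ρ(θ(t)) = c₁(t) u₁(t) + … + c_k(t) u_k(t) + q(t)`
with entire coefficients `b ≠ 0`, `c₁, …, c_k`, `q` bounded by `exp (A e^{σ|z|})`, `σ < 1`.  At most
`k` non-circular ones, with pairwise non-proportional functions `ρ(θ(t))`, have a nonconstant real
analytic function near `γ` whose level sets are exchanged by the point reflections of the tangent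
lines in the points of tangency. -/
theorem result (k : ℕ) (u : Fin k → ℝ → ℂ) (n : ℕ) (γ : Fin n → ℝ → ℂ) (ρ θ : Fin n → ℝ → ℝ)
    (hF : IsFamily γ ρ θ)
    (σ : ℝ) (hσ : σ < 1) (b : Fin n → ℂ → ℂ) (c : Fin n → Fin k → ℂ → ℂ) (q : Fin n → ℂ → ℂ)
    (hb : ∀ j, IsSmall σ (b j)) (hb0 : ∀ j, ∃ z, b j z ≠ 0) (hc : ∀ j i, IsSmall σ (c j i))
    (hq : ∀ j, IsSmall σ (q j))
    (hρ : ∀ j, ∀ t : ℝ, b j t * (ρ j (θ j t) : ℂ) = ∑ i, c j i t * u i t + q j t) : n ≤ k := by
  obtain ⟨h1, h2, h3, h4, h5⟩ := hF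
  have hex : ∀ j, ∃ P : ℂ → ℂ, TH242.MK.Ext (fun t => ρ j (θ j t)) P := by
    intro j
    obtain ⟨K, U, hK⟩ := h2 j
    obtain ⟨v, w, m1, m2, m3, m4, m5, m6, m7⟩ := h5 j
    obtain ⟨a1, a2, a3, a4⟩ := h1 j
    exact TH242.MK.outer_ext (γ := γ j) ⟨a1, a2, a3, a4⟩ (oInt hK)
      (v := v) (w := w) ⟨m1, m2, m3, m4, m5, m6, m7⟩
  choose R hR using hex
  refine TH242.MK.few hR (fun j => ?_) h4 (le_max_right σ 0) (max_lt hσ one_pos) u
    (fun j => small (hb j)) hb0 (fun j i => small (hc j i)) (fun j => small (hq j)) hρ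
  rintro ⟨c, hc⟩
  obtain ⟨v, w, -, -, -, -, m5, -, -⟩ := h5 j
  refine h3 j ⟨c, fun s => ?_⟩
  obtain ⟨t, rfl⟩ := m5 s
  exact hc t

end Pool.Agent.Results.MP_ae5b4e_an.OuterFewInFamilies
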