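import Pool.Agent.TH229.PG.Front3
import Pool.Agent.TH874.PGConic

/-!
# MP_ae5b4e_an: rigidity of arbitrary convex curves whose whole exterior is foliated

`γ = (a, b)` is a smooth closed strictly convex curve of positive curvature in an affine chart
`ℝ²` of the real projective plane; `point x = (a x : b x : 1)` are homogeneous coordinates of its
points, `tangentLine x` are the coefficients of the tangent line at `point x`, and `meet x x'` are
homogeneous coordinates of the intersection of two tangent lines.  For `x < x' < x + 2π` these are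
all exterior points of `γ` in the projective plane (each of them twice, as
`meet x' (x + 2π) = -meet x x'`), and `x' ↦ meet x x'` runs once through the tangent line at `x`
without the point of tangency.

A closed curve around `γ` which meets every tangent line of `γ` in two points is the set of the
points `meet x (τ x)`, where `τ` satisfies `Leaf`: `τ x` is the foot of the second tangent line
from the forward point of the curve on the tangent line at `x`.
-/

set_option autoImplicit false

namespace Pool.Agent.Results.MP_ae5b4e_an.WholeExteriorRigidity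

open Real Set
open scoped ContDiff Matrix

/-- `x ↦ (a x, b x)` is a smooth closed curve of positive curvature which stays strictly on the
left of each of its tangent lines (a strictly convex curve, counterclockwise). -/
structure ConvexCurve (a b : ℝ → ℝ) : Prop where
  smooth₁ : ContDiff ℝ ∞ a
  smooth₂ : ContDiff ℝ ∞ b
  per₁ : ∀ x, a (x + 2 * π) = a x
  per₂ : ∀ x, b (x + 2 * π) = b x
  curvature : ∀ x, 0 < deriv a x * deriv (deriv b) x - deriv b x * deriv (deriv a) x
  convex : ∀ x x', x < x' → x' < x + 2 * π →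
    0 < deriv a x * (b x' - b x) - deriv b x * (a x' - a x)

/-- homogeneous coordinates of a point of the curve -/
def point (a b : ℝ → ℝ) (x : ℝ) : Fin 3 → ℝ := ![a x, b x, 1]

/-- coefficients of the tangent line: the line through `point x` in the direction `(a', b')` -/
noncomputable def tangentLine (a b : ℝ → ℝ) (x : ℝ) : Fin 3 → ℝ :=
  point a b x ⨯₃ ![deriv a x, deriv b x, 0]

/-- intersection of the tangent lines at `x` and `x'` -/
noncomputable def meet (a b : ℝ → ℝ) (x x' : ℝ) : Fin 3 → ℝ :=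
  tangentLine a b x ⨯₃ tangentLine a b x'

/-- Tangent-foot description of a closed curve around `γ`: the curve is the set of the
points `meet x (τ x)`. -/
structure Leaf (τ : ℝ → ℝ) : Prop where
  cont : Continuous τ
  mono : StrictMono τ
  per : ∀ x, τ (x + 2 * π) = τ x + 2 * π
  above : ∀ x, x < τ x
  below : ∀ x, τ x < x + 2 * π

/-- `𝓕` foliates the whole exterior of `γ`: through every exterior point `meet x x'`,
seen from the tangent line at `x`, passes exactly one leaf. -/
structure Foliation (𝓕 : Set (ℝ → ℝ)) : Prop where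
  leaf : ∀ τ ∈ 𝓕, Leaf τ
  unique : ∀ x x', x < x' → x' < x + 2 * π → ∃! τ, τ ∈ 𝓕 ∧ τ x = x'

/-- The involution `σ_p` of the tangent line at `p`, which exchanges the two points
`meet p (τ p)` and `meet u p`, `τ u = p`, of every leaf, is projective: it is the restriction of
a projective transformation (linear automorphism of the homogeneous coordinates) fixing the point
of tangency. -/
def ProjectiveAt (a b : ℝ → ℝ) (𝓕 : Set (ℝ → ℝ)) (p : ℝ) : Prop :=
  ∃ f : (Fin 3 → ℝ) ≃ₗ[ℝ] (Fin 3 → ℝ), (∃ r : ℝ, f (point a b p) = r • point a b p) ∧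
    ∀ τ ∈ 𝓕, ∀ u, τ u = p → (∃ r : ℝ, f (meet a b p (τ p)) = r • meet a b u p) ∧
      ∃ r : ℝ, f (meet a b u p) = r • meet a b p (τ p)

open Pool.Agent.TH229.PG (dot crs D0 uu Dual Fol ext3 crs0 crs1 crs2)

theorem cross_eq (u v : Fin 3 → ℝ) : u ⨯₃ v = crs u v := rfl

theorem dot_eq (u v : Fin 3 → ℝ) : u ⬝ᵥ v = dot u v := by
  simp [dot, dotProduct, Fin.sum_univ_three]

section
variable {a b : ℝ → ℝ} (h : ConvexCurve a b)
include h

theorem tl_eq : tangentLine a b =
    fun x => ![-deriv b x, deriv a x, a x * deriv b x - b x * deriv a x] := by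
  funext x
  unfold tangentLine point
  rw [cross_eq]
  refine ext3 ?_ ?_ ?_ <;> simp

theorem sa1 : ContDiff ℝ ∞ (deriv a) := (contDiff_infty_iff_deriv.mp h.smooth₁).2
theorem sb1 : ContDiff ℝ ∞ (deriv b) := (contDiff_infty_iff_deriv.mp h.smooth₂).2
theorem sa2 : ContDiff ℝ ∞ (deriv (deriv a)) := (contDiff_infty_iff_deriv.mp (sa1 h)).2
theorem sb2 : ContDiff ℝ ∞ (deriv (deriv b)) := (contDiff_infty_iff_deriv.mp (sb1 h)).2
theorem da (x : ℝ) : HasDerivAt a (deriv a x) x :=
  (h.smooth₁.differentiable (by norm_num) x).hasDerivAt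
theorem db (x : ℝ) : HasDerivAt b (deriv b x) x :=
  (h.smooth₂.differentiable (by norm_num) x).hasDerivAt
theorem da1 (x : ℝ) : HasDerivAt (deriv a) (deriv (deriv a) x) x :=
  ((sa1 h).differentiable (by norm_num) x).hasDerivAt
theorem db1 (x : ℝ) : HasDerivAt (deriv b) (deriv (deriv b) x) x :=
  ((sb1 h).differentiable (by norm_num) x).hasDerivAt
theorem da2 (x : ℝ) : HasDerivAt (deriv (deriv a)) (deriv (deriv (deriv a)) x) x :=
  ((sa2 h).differentiable (by norm_num) x).hasDerivAt
theorem db2 (x : ℝ) : HasDerivAt (deriv (deriv b)) (deriv (deriv (deriv b)) x) x :=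
  ((sb2 h).differentiable (by norm_num) x).hasDerivAt

theorem tl_deriv : deriv (tangentLine a b) = fun x => ![-deriv (deriv b) x, deriv (deriv a) x,
    a x * deriv (deriv b) x - b x * deriv (deriv a) x] := by
  rw [tl_eq h]
  funext x
  refine HasDerivAt.deriv (hasDerivAt_pi.mpr fun i => ?_)
  fin_cases i
  · exact (db1 h x).neg
  · exact da1 h x
  · refine (((da h x).mul (db1 h x)).sub ((db h x).mul (da1 h x))).congr_deriv ?_
    simp; ring

theorem tl_deriv2 : deriv (deriv (tangentLine a b)) = fun x => ![-deriv (deriv (deriv b)) x,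
    deriv (deriv (deriv a)) x, deriv a x * deriv (deriv b) x - deriv b x * deriv (deriv a) x +
    a x * deriv (deriv (deriv b)) x - b x * deriv (deriv (deriv a)) x] := by
  rw [tl_deriv h]
  funext x
  refine HasDerivAt.deriv (hasDerivAt_pi.mpr fun i => ?_)
  fin_cases i
  · exact (db2 h x).neg
  · exact da2 h x
  · refine (((da h x).mul (db2 h x)).sub ((db h x).mul (da2 h x))).congr_deriv ?_
    simp; ring

/-- curvature function -/
noncomputable def kap (a b : ℝ → ℝ) (x : ℝ) : ℝ :=
  deriv a x * deriv (deriv b) x - deriv b x * deriv (deriv a) x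

theorem crs_tl (x : ℝ) : crs (tangentLine a b x) (deriv (tangentLine a b) x) =
    kap a b x • point a b x := by
  rw [tl_deriv h, tl_eq h]
  unfold kap point
  refine ext3 ?_ ?_ ?_
  · simp; ring
  · simp; ring
  · simp; ring

theorem per_d {f : ℝ → ℝ} (hf : ∀ x, HasDerivAt f (deriv f x) x)
    (hp : ∀ x, f (x + 2 * π) = f x) (x : ℝ) : deriv f (x + 2 * π) = deriv f x := by
  have h0 : HasDerivAt (fun x : ℝ => x + 2 * π) 1 x := (hasDerivAt_id x).add_const _
  have h1 : HasDerivAt (fun x => f (x + 2 * π)) (deriv f (x + 2 * π) * 1) x :=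
    (hf (x + 2 * π)).comp x h0
  have h2 : (fun x => f (x + 2 * π)) = f := funext hp
  rw [h2, mul_one] at h1
  exact h1.unique (hf x)

theorem toDual : Dual (tangentLine a b) := by
  refine ⟨?_, fun x => ?_, fun x => ?_, fun x x' h1 h2 => ?_⟩
  · rw [tl_eq h]
    refine contDiff_pi.mpr fun i => ?_
    fin_cases i
    · exact (sb1 h).neg
    · exact sa1 h
    · exact (h.smooth₁.mul (sb1 h)).sub (h.smooth₂.mul (sa1 h))
  · rw [tl_eq h]
    simp only [h.per₁, h.per₂, per_d h (da h) h.per₁, per_d h (db h) h.per₂]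
  · rw [crs_tl h, tl_deriv2 h]
    have h1 := h.curvature x
    have e : dot (kap a b x • point a b x) ![-deriv (deriv (deriv b)) x,
        deriv (deriv (deriv a)) x, deriv a x * deriv (deriv b) x - deriv b x * deriv (deriv a) x +
        a x * deriv (deriv (deriv b)) x - b x * deriv (deriv (deriv a)) x] =
        kap a b x * (deriv a x * deriv (deriv b) x - deriv b x * deriv (deriv a) x) := by
      unfold point
      simp [dot]
      ring
    simp only [e]
    exact mul_pos h1 h1
  · unfold D0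
    rw [crs_tl h, tl_eq h]
    have h3 := h.curvature x
    have h4 := h.convex x' (x + 2 * π) h2 (by linarith)
    rw [h.per₁, h.per₂] at h4
    have e : dot (kap a b x • point a b x)
        ![-deriv b x', deriv a x', a x' * deriv b x' - b x' * deriv a x'] =
        kap a b x * (deriv a x' * (b x - b x') - deriv b x' * (a x - a x')) := by
      unfold point
      simp [dot]
      ring
    simp only [e]
    exact mul_pos h3 h4

end

theorem toFol {𝓕 : Set (ℝ → ℝ)} (hF : Foliation 𝓕) : Fol 𝓕 :=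
  ⟨fun τ hτ => ⟨(hF.leaf τ hτ).cont, (hF.leaf τ hτ).mono, (hF.leaf τ hτ).per,
    (hF.leaf τ hτ).above, (hF.leaf τ hτ).below⟩, hF.unique⟩

/-- **Rigidity of convex curves with totally foliated exterior.**  Let `γ` be a smooth closed
strictly convex curve of positive curvature, let the whole exterior of `γ` in the projective plane
be foliated by closed curves (`Foliation`), one of them smooth and regular, and let all the
involutions `σ_p` be projective.  Then there are projective coordinates `L₁, L₂, L₃` in which `γ`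
is the conic `L₁² + L₂² = L₃²` (an ellipse), and every leaf is exactly the real locus of a conic
`κ (L₁² + L₂²) = L₃²`, `0 ≤ κ < 1`: `γ` and all leaves belong to one pencil of conics. -/
theorem result {a b : ℝ → ℝ} (h : ConvexCurve a b) (𝓕 : Set (ℝ → ℝ)) (hF : Foliation 𝓕)
    (hs : ∃ τ ∈ 𝓕, ContDiff ℝ ∞ τ ∧ ∀ x, deriv τ x ≠ 0) (hp : ∀ p, ProjectiveAt a b 𝓕 p) :
    ∃ L₁ L₂ L₃ : Fin 3 → ℝ, LinearIndependent ℝ ![L₁, L₂, L₃] ∧
      (∀ v : Fin 3 → ℝ, v ≠ 0 → ((L₁ ⬝ᵥ v) ^ 2 + (L₂ ⬝ᵥ v) ^ 2 = (L₃ ⬝ᵥ v) ^ 2 ↔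
        ∃ x r : ℝ, v = r • point a b x)) ∧
      ∀ τ ∈ 𝓕, ∃ κ : ℝ, 0 ≤ κ ∧ κ < 1 ∧ ∀ v : Fin 3 → ℝ, v ≠ 0 →
        (κ * ((L₁ ⬝ᵥ v) ^ 2 + (L₂ ⬝ᵥ v) ^ 2) = (L₃ ⬝ᵥ v) ^ 2 ↔
          ∃ x r : ℝ, v = r • meet a b x (τ x)) := by
  have hg := toDual h
  have hF' := toFol hF
  have hkap : ∀ x, kap a b x ≠ 0 := fun x => (h.curvature x).ne'
  have hk : ∀ p, ∃ k : ℝ, ∀ τ ∈ 𝓕, ∀ u, τ u = p →
      uu (tangentLine a b) p (τ p) + uu (tangentLine a b) p u = k := by
    intro p
    obtain ⟨f, ⟨r, hr⟩, hf⟩ := hp p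
    refine Pool.Agent.TH229.PG.exists_k hg hF' f ⟨r, ?_⟩ hf
    rw [crs_tl h, map_smul, hr, smul_comm]
  obtain ⟨Φ, Ψ, lam, u, v, w, hdet, hΦΨ, hE, hrot, htan⟩ :=
    Pool.Agent.TH229.PG.assemble hg hF' hs hk
  refine ⟨u, v, w, ?_, fun z hz => ?_, fun τ hτ => ?_⟩
  · have : (Matrix.of ![u, v, w]).det ≠ 0 := by
      rw [Matrix.det_fin_three]
      intro h0
      apply hdet
      rw [← h0]
      simp [dot]
      ring
    exact Matrix.linearIndependent_rows_of_det_ne_zero this
  · rw [dot_eq, dot_eq, dot_eq, eq_comm, Pool.Agent.TH874.PG.conic_base hdet hz]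
    constructor
    · rintro ⟨s, r, rfl⟩
      obtain ⟨r₀, hr₀, e⟩ := htan s
      refine ⟨Φ s, r * (r₀ * kap a b (Φ s)), ?_⟩
      rw [e, crs_tl h, smul_smul, smul_smul]
      congr 1; ring
    · rintro ⟨x, r, rfl⟩
      obtain ⟨r₀, hr₀, e⟩ := htan (Ψ x)
      refine ⟨Ψ x, r * (r₀ * kap a b x)⁻¹, ?_⟩
      rw [e, hΦΨ, crs_tl h, smul_smul, smul_smul]
      congr 1
      have := hkap x
      field_simp
  · obtain ⟨θ, h0, h1, hθ⟩ := hrot τ hτ
    have hc : Real.cos (θ / 2) ^ 2 < 1 := by
      have hsn : 0 < Real.sin (θ / 2) := Real.sin_pos_of_pos_of_lt_pi (by linarith) (by linarith)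
      have := Real.sin_sq_add_cos_sq (θ / 2)
      nlinarith
    refine ⟨Real.cos (θ / 2) ^ 2, sq_nonneg _, hc, fun z hz => ?_⟩
    rw [dot_eq, dot_eq, dot_eq, eq_comm, Pool.Agent.TH874.PG.conic_leaf hdet h0 h1 hz]
    have hEE : ∀ s, crs (Real.cos s • u + Real.sin s • v + w)
        (Real.cos (s + θ) • u + Real.sin (s + θ) • v + w) =
        (lam s * lam (s + θ)) • meet a b (Φ s) (τ (Φ s)) := by
      intro s
      rw [(hE s).2, (hE (s + θ)).2, ← hθ s, Pool.Agent.TH229.PG.crs_smul_left,
        Pool.Agent.TH229.PG.crs_smul_right, smul_smul]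
      rfl
    constructor
    · rintro ⟨s, r, rfl⟩
      exact ⟨Φ s, r * (lam s * lam (s + θ)), by rw [hEE, smul_smul]⟩
    · rintro ⟨x, r, rfl⟩
      refine ⟨Ψ x, r * (lam (Ψ x) * lam (Ψ x + θ))⁻¹, ?_⟩
      rw [hEE, hΦΨ, smul_smul]
      congr 1
      have p1 := (hE (Ψ x)).1
      have p2 := (hE (Ψ x + θ)).1
      field_simp

end Pool.Agent.Results.MP_ae5b4e_an.WholeExteriorRigidity
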